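import Mathlib.Tactic.Monotonicity.Lemmas
import Mathlib.RingTheory.Finiteness.Prod
import Mathlib.Algebra.Order.Ring.Star
import Mathlib.Data.Finsupp.Encodable
import Mathlib.Topology.GDelta.MetrizableSpace
import Mathlib.Topology.Baire.CompleteMetrizable
import Mathlib.Analysis.RCLike.Lemmas
import Mathlib.Algebra.Order.Field.GeomSum
import Mathlib.Algebra.Order.Star.Real
import Mathlib.Topology.ContinuousMap.ZeroAtInfty
import Mathlib.Topology.Separation.CompletelyRegular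
import Mathlib.Tactic.Algebra.Basic

-- ======== part 0: formerly Pool.Agent.MP_eb85b6_an.Comb
section MrgPart0

/-!
Combinatorial data for the counterexample: a type function `mu`, a depth function `lam`
and a sequence of slopes `slope`.
-/

set_option autoImplicit false

namespace Pool.Agent.MP_eb85b6_an

open Finset

/-- The type of the time `k`. -/
def mu (k : ℕ) : ℕ :=
  if k < 2 ^ (Nat.log 2 k) + 2 ^ (Nat.log 2 k - (Nat.unpair (Nat.log 2 k)).1)
  then (Nat.unpair (Nat.log 2 k)).1 else 0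

/-- `k` lies within `p` of a positive multiple of `4 ^ p`. -/
def Dip (p k : ℕ) : Prop := ∃ i : ℕ, 1 ≤ i ∧ i * 4 ^ p ≤ k + p ∧ k ≤ i * 4 ^ p + p

open Classical in
/-- The depth at time `k`. -/
noncomputable def lam (k : ℕ) : ℕ := Nat.findGreatest (fun p => mu k = p ∨ Dip p k) k

lemma mu_le_log (k : ℕ) : mu k ≤ Nat.log 2 k := by
  unfold mu
  split_ifs
  · exact Nat.unpair_left_le _
  · exact Nat.zero_le _

lemma mu_le (k : ℕ) : mu k ≤ k := (mu_le_log k).trans (Nat.log_le_self 2 k)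

lemma lam_le (k : ℕ) : lam k ≤ k := by
  classical
  unfold lam
  exact Nat.findGreatest_le _

lemma mu_le_lam (k : ℕ) : mu k ≤ lam k := by
  classical
  unfold lam
  exact Nat.le_findGreatest (mu_le k) (Or.inl rfl)

lemma two_mul_lt_four_pow (p : ℕ) : 2 * p < 4 ^ p := by
  have h : 2 * p < 2 ^ (2 * p) := Nat.lt_two_pow_self
  rwa [pow_mul] at h

lemma Dip.le {p k : ℕ} (h : Dip p k) : p ≤ k := by
  obtain ⟨i, hi, h1, -⟩ := h
  have := two_mul_lt_four_pow p
  have h2 : 4 ^ p ≤ i * 4 ^ p := Nat.le_mul_of_pos_left _ hi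
  omega

lemma Dip.le_lam {p k : ℕ} (h : Dip p k) : p ≤ lam k := by
  classical
  unfold lam
  exact Nat.le_findGreatest h.le (Or.inr h)

lemma lam_spec (k : ℕ) : mu k = lam k ∨ Dip (lam k) k := by
  classical
  unfold lam
  exact Nat.findGreatest_spec (P := fun p => mu k = p ∨ Dip p k) (mu_le k) (Or.inl rfl)

lemma mu_window (m s₀ : ℕ) :
    ∃ s, s₀ ≤ s ∧ ∀ k, 2 ^ s ≤ k → k < 2 ^ s + 2 ^ (s - m) → mu k = m := by
  refine ⟨Nat.pair m s₀, Nat.right_le_pair _ _, fun k h1 h2 => ?_⟩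
  have h3 : 2 ^ (Nat.pair m s₀ - m) ≤ 2 ^ (Nat.pair m s₀) :=
    Nat.pow_le_pow_right (by norm_num) (Nat.sub_le _ _)
  have hlog : Nat.log 2 k = Nat.pair m s₀ :=
    Nat.log_eq_of_pow_le_of_lt_pow h1 (by rw [pow_succ]; omega)
  unfold mu
  rw [hlog, Nat.unpair_pair]
  simp only
  rw [if_pos h2]

lemma card_mu (R N : ℕ) (hR : 1 ≤ R) :
    ((Finset.Icc 1 N).filter (fun k => R ≤ mu k)).card * 2 ^ R ≤ 2 * N := by
  rcases Nat.eq_zero_or_pos N with rfl | hN
  · simp
  have hsub : (Finset.Icc 1 N).filter (fun k => R ≤ mu k) ⊆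
      (Finset.Icc R (Nat.log 2 N)).biUnion (fun s => Finset.Ico (2 ^ s) (2 ^ s + 2 ^ (s - R))) := by
    intro k hk
    simp only [mem_filter, mem_Icc] at hk
    obtain ⟨⟨h1, h2⟩, h3⟩ := hk
    simp only [mem_biUnion, mem_Icc, mem_Ico]
    refine ⟨Nat.log 2 k, ⟨h3.trans (mu_le_log k), Nat.log_mono_right h2⟩,
      Nat.pow_log_le_self 2 (by omega), ?_⟩
    unfold mu at h3
    split_ifs at h3 with h
    · have : 2 ^ (Nat.log 2 k - (Nat.unpair (Nat.log 2 k)).1) ≤ 2 ^ (Nat.log 2 k - R) :=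
        Nat.pow_le_pow_right (by norm_num) (by omega)
      omega
    · omega
  have h1 := (card_le_card hsub).trans card_biUnion_le
  have h2 : (∑ s ∈ Finset.Icc R (Nat.log 2 N),
      (Finset.Ico (2 ^ s) (2 ^ s + 2 ^ (s - R))).card) * 2 ^ R
      ≤ ∑ s ∈ Finset.range (Nat.log 2 N + 1), 2 ^ s := by
    rw [Finset.sum_mul]
    calc _ = ∑ s ∈ Finset.Icc R (Nat.log 2 N), 2 ^ s := by
          refine Finset.sum_congr rfl fun s hs => ?_
          simp only [mem_Icc] at hs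
          rw [Nat.card_Ico, Nat.add_sub_cancel_left, ← pow_add]
          congr 1
          omega
      _ ≤ _ := by
          refine Finset.sum_le_sum_of_subset fun s hs => ?_
          simp only [mem_Icc] at hs
          simp only [mem_range]
          omega
  have h3 : ∑ s ∈ Finset.range (Nat.log 2 N + 1), 2 ^ s ≤ 2 * N := by
    rw [Nat.geomSum_eq (le_refl 2)]
    have := Nat.pow_log_le_self 2 (show N ≠ 0 by omega)
    rw [pow_succ]
    omega
  calc _ ≤ _ := Nat.mul_le_mul_right _ h1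
    _ ≤ _ := h2
    _ ≤ _ := h3

open Classical in
lemma card_dip (p N : ℕ) :
    (((Finset.Icc 1 N).filter (fun k => Dip p k)).card : ℝ) ≤ 4 * N * (1 / 2) ^ p := by
  have hsub : (Finset.Icc 1 N).filter (fun k => Dip p k) ⊆
      (Finset.Icc 1 (2 * N / 4 ^ p)).biUnion
        (fun i => Finset.Icc (i * 4 ^ p - p) (i * 4 ^ p + p)) := by
    intro k hk
    simp only [mem_filter, mem_Icc] at hk
    obtain ⟨⟨h1, h2⟩, hd⟩ := hk
    have hp := hd.le
    obtain ⟨i, hi, h3, h4⟩ := hd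
    simp only [mem_biUnion, mem_Icc]
    refine ⟨i, ⟨hi, ?_⟩, by omega, h4⟩
    rw [Nat.le_div_iff_mul_le (by positivity)]
    omega
  have h1 := (card_le_card hsub).trans card_biUnion_le
  have h2 : ∑ i ∈ Finset.Icc 1 (2 * N / 4 ^ p),
      (Finset.Icc (i * 4 ^ p - p) (i * 4 ^ p + p)).card ≤ (2 * N / 4 ^ p) * (2 * 2 ^ p) := by
    have hp : p < 2 ^ p := Nat.lt_two_pow_self
    calc _ ≤ ∑ i ∈ Finset.Icc 1 (2 * N / 4 ^ p), 2 * 2 ^ p := by
          refine Finset.sum_le_sum fun i _ => ?_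
          rw [Nat.card_Icc]
          omega
      _ = _ := by simp
  have h3 : (((2 * N / 4 ^ p : ℕ)) : ℝ) ≤ 2 * N / 4 ^ p := by
    have := @Nat.cast_div_le ℝ _ _ _ (2 * N) (4 ^ p)
    push_cast at this
    exact this
  have h4 : ((((Finset.Icc 1 N).filter (fun k => Dip p k)).card : ℕ) : ℝ)
      ≤ ((2 * N / 4 ^ p : ℕ) : ℝ) * (2 * 2 ^ p) := by
    exact_mod_cast h1.trans h2
  refine h4.trans ?_
  have h5 : (4 : ℝ) ^ p = 2 ^ p * 2 ^ p := by rw [← mul_pow]; norm_num
  calc ((2 * N / 4 ^ p : ℕ) : ℝ) * (2 * 2 ^ p) ≤ (2 * N / 4 ^ p) * (2 * 2 ^ p) := by gcongr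
    _ = 4 * N * (1 / 2) ^ p := by
      rw [h5, one_div, inv_pow]
      field_simp
      ring

lemma card_lam (R N : ℕ) (hR : 1 ≤ R) :
    (((Finset.Icc 1 N).filter (fun k => R ≤ lam k)).card : ℝ) ≤ 10 * N * (1 / 2) ^ R := by
  classical
  have hsub : (Finset.Icc 1 N).filter (fun k => R ≤ lam k) ⊆
      (Finset.Icc 1 N).filter (fun k => R ≤ mu k) ∪
      (Finset.Ico R (R + N + 1)).biUnion
        (fun p => (Finset.Icc 1 N).filter (fun k => Dip p k)) := by
    intro k hk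
    simp only [mem_filter, mem_Icc] at hk
    obtain ⟨⟨h1, h2⟩, h3⟩ := hk
    simp only [mem_union, mem_filter, mem_Icc, mem_biUnion, mem_Ico]
    rcases lam_spec k with h | h
    · left
      exact ⟨⟨h1, h2⟩, by omega⟩
    · right
      have := lam_le k
      exact ⟨lam k, ⟨h3, by omega⟩, ⟨h1, h2⟩, h⟩
  have h1 := (card_le_card hsub).trans
    ((card_union_le _ _).trans (Nat.add_le_add_left card_biUnion_le _))
  have h2 : ((((Finset.Icc 1 N).filter (fun k => R ≤ mu k)).card : ℕ) : ℝ)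
      ≤ 2 * N * (1 / 2) ^ R := by
    have h := card_mu R N hR
    have h' : ((((Finset.Icc 1 N).filter (fun k => R ≤ mu k)).card : ℕ) : ℝ) * 2 ^ R ≤ 2 * N := by
      exact_mod_cast h
    rw [one_div, inv_pow, ← div_eq_mul_inv, le_div_iff₀ (by positivity)]
    exact h'
  have h3 : ((∑ p ∈ Finset.Ico R (R + N + 1),
      ((Finset.Icc 1 N).filter (fun k => Dip p k)).card : ℕ) : ℝ) ≤ 8 * N * (1 / 2) ^ R := by
    push_cast
    calc _ ≤ ∑ p ∈ Finset.Ico R (R + N + 1), 4 * (N : ℝ) * (1 / 2) ^ p :=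
          Finset.sum_le_sum fun p _ => card_dip p N
      _ = 4 * (N : ℝ) * ∑ p ∈ Finset.Ico R (R + N + 1), (1 / 2 : ℝ) ^ p := by
          rw [Finset.mul_sum]
      _ ≤ 4 * (N : ℝ) * ((1 / 2 : ℝ) ^ R / (1 - 1 / 2)) := by
          gcongr
          exact geom_sum_Ico_le_of_lt_one (by norm_num) (by norm_num)
      _ = 8 * N * (1 / 2) ^ R := by ring
  have h4 : ((((Finset.Icc 1 N).filter (fun k => R ≤ lam k)).card : ℕ) : ℝ) ≤
      (((Finset.Icc 1 N).filter (fun k => R ≤ mu k)).card : ℕ) +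
      ((∑ p ∈ Finset.Ico R (R + N + 1),
      ((Finset.Icc 1 N).filter (fun k => Dip p k)).card : ℕ) : ℝ) := by
    exact_mod_cast h1
  linarith

/-- An enumeration of the rationals. -/
noncomputable def enumQ : ℕ → ℚ := (exists_surjective_nat ℚ).choose

lemma enumQ_surj : Function.Surjective enumQ := (exists_surjective_nat ℚ).choose_spec

/-- A sequence of slopes taking every rational value, with linear growth. -/
noncomputable def slope (m : ℕ) : ℝ :=
  if |((enumQ (Nat.unpair m).1 : ℚ) : ℝ)| ≤ m then ((enumQ (Nat.unpair m).1 : ℚ) : ℝ) else 0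

lemma abs_slope_le (m : ℕ) : |slope m| ≤ m := by
  unfold slope
  split_ifs with h
  · exact h
  · simp

lemma slope_rat (r : ℚ) : ∃ m, slope m = r := by
  obtain ⟨i, hi⟩ := enumQ_surj r
  refine ⟨Nat.pair i ⌈|(r : ℝ)|⌉₊, ?_⟩
  unfold slope
  rw [Nat.unpair_pair]
  simp only [hi]
  rw [if_pos]
  refine (Nat.le_ceil _).trans ?_
  exact_mod_cast Nat.right_le_pair _ _

lemma eventually_small (A B c δ : ℝ) (hδ : 0 < δ) :
    ∃ J : ℕ, ∀ j : ℕ, J ≤ j → (A * (1 + c * j) + B) * (1 / 2) ^ j < δ := by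
  have h1 : Filter.Tendsto (fun j : ℕ => (1 / 2 : ℝ) ^ j) Filter.atTop (nhds 0) :=
    tendsto_pow_atTop_nhds_zero_of_lt_one (by norm_num) (by norm_num)
  have h2 : Filter.Tendsto (fun j : ℕ => (j : ℝ) * (1 / 2 : ℝ) ^ j) Filter.atTop (nhds 0) :=
    tendsto_self_mul_const_pow_of_lt_one (by norm_num) (by norm_num)
  have h3 : Filter.Tendsto (fun j : ℕ => (A + B) * (1 / 2 : ℝ) ^ j + (A * c) * ((j : ℝ) * (1 / 2 : ℝ) ^ j))
      Filter.atTop (nhds ((A + B) * 0 + (A * c) * 0)) :=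
    (h1.const_mul _).add (h2.const_mul _)
  simp only [mul_zero, add_zero] at h3
  obtain ⟨J, hJ⟩ := Filter.eventually_atTop.1 (h3.eventually (gt_mem_nhds hδ))
  refine ⟨J, fun j hj => ?_⟩
  have := hJ j hj
  linarith [show (A * (1 + c * j) + B) * (1 / 2 : ℝ) ^ j =
    (A + B) * (1 / 2 : ℝ) ^ j + (A * c) * ((j : ℝ) * (1 / 2 : ℝ) ^ j) by ring]

end Pool.Agent.MP_eb85b6_an

end MrgPart0

-- ======== part 1: formerly Pool.Agent.MP_eb85b6_an.Op
section MrgPart1

/-!
The Banach space `(ℝ × ℝ) × c₀(ℕ × ℕ)` and the operator of the counterexample.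
-/

set_option autoImplicit false

namespace Pool.Agent.MP_eb85b6_an

open Filter Topology

/-- The space `c₀(ℕ × ℕ)`. -/
abbrev E : Type := ZeroAtInftyContinuousMap (ℕ × ℕ) ℝ

lemma tendsto_of_box (F : ℕ × ℕ → ℝ)
    (h : ∀ ε : ℝ, 0 < ε → ∃ K : ℕ, ∀ k j, (K ≤ k ∨ K ≤ j) → |F (k, j)| < ε) :
    Tendsto F (cocompact (ℕ × ℕ)) (𝓝 0) := by
  rw [cocompact_eq_cofinite, Metric.tendsto_nhds]
  intro ε hε
  obtain ⟨K, hK⟩ := h ε hε
  rw [Filter.eventually_cofinite]
  refine ((Set.finite_lt_nat K).prod (Set.finite_lt_nat K)).subset ?_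
  rintro ⟨k, j⟩ hkj
  simp only [Set.mem_ofPred_eq, Real.dist_eq, sub_zero] at hkj
  simp only [Set.mem_prod, Set.mem_ofPred_eq]
  by_contra hc
  apply hkj
  apply hK
  omega

lemma box_of_E (y : E) (ε : ℝ) (hε : 0 < ε) :
    ∃ K : ℕ, ∀ k j, (K ≤ k ∨ K ≤ j) → |y (k, j)| < ε := by
  have h := y.zero_at_infty'
  rw [cocompact_eq_cofinite, Metric.tendsto_nhds] at h
  have h2 := h ε hε
  rw [Filter.eventually_cofinite] at h2
  obtain ⟨K1, hK1⟩ := (h2.image Prod.fst).bddAbove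
  obtain ⟨K2, hK2⟩ := (h2.image Prod.snd).bddAbove
  refine ⟨max K1 K2 + 1, fun k j hkj => ?_⟩
  by_contra hc
  have hm : (k, j) ∈ {x : ℕ × ℕ | ¬dist (y.toContinuousMap.toFun x) 0 < ε} := by
    simp only [Set.mem_ofPred_eq, Real.dist_eq, sub_zero]
    exact hc
  have h1 : k ≤ K1 := hK1 ⟨_, hm, rfl⟩
  have h3 : j ≤ K2 := hK2 ⟨_, hm, rfl⟩
  omega

/-- Build an element of `c₀(ℕ × ℕ)`. -/
def mkE (F : ℕ × ℕ → ℝ)
    (h : ∀ ε : ℝ, 0 < ε → ∃ K : ℕ, ∀ k j, (K ≤ k ∨ K ≤ j) → |F (k, j)| < ε) : E where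
  toFun := F
  continuous_toFun := continuous_of_discreteTopology
  zero_at_infty' := tendsto_of_box F h

@[simp] lemma mkE_apply (F : ℕ × ℕ → ℝ)
    (h : ∀ ε : ℝ, 0 < ε → ∃ K : ℕ, ∀ k j, (K ≤ k ∨ K ≤ j) → |F (k, j)| < ε) (q : ℕ × ℕ) :
    mkE F h q = F q := rfl

lemma abs_le_norm (y : E) (q : ℕ × ℕ) : |y q| ≤ ‖y‖ := by
  rw [← ZeroAtInftyContinuousMap.norm_toBCF_eq_norm]
  exact y.toBCF.norm_coe_le_norm q

lemma norm_le_of (y : E) (C : ℝ) (hC : 0 ≤ C) (h : ∀ k j, |y (k, j)| ≤ C) : ‖y‖ ≤ C := by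
  rw [← ZeroAtInftyContinuousMap.norm_toBCF_eq_norm]
  rw [BoundedContinuousFunction.norm_le hC]
  rintro ⟨k, j⟩
  exact h k j

/-- The exponent of the weight. -/
noncomputable def ex (k j : ℕ) : ℕ := if j < k then j else lam k + (j - k)

/-- The weight. -/
noncomputable def nu (k j : ℕ) : ℝ := (1 / 2) ^ ex k j

lemma nu_pos (k j : ℕ) : 0 < nu k j := by unfold nu; positivity

lemma ex_succ_le (k j : ℕ) : ex k (j + 1) ≤ ex k j + 1 := by
  have := lam_le k
  unfold ex
  split_ifs <;> omega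

lemma ex_le (k j : ℕ) : ex k j ≤ j := by
  have := lam_le k
  unfold ex
  split_ifs <;> omega

lemma nu_le_of {k j p : ℕ} (h : p ≤ ex k j) : nu k j ≤ (1 / 2) ^ p :=
  pow_le_pow_of_le_one (by norm_num) (by norm_num) h

lemma le_nu_of {k j p : ℕ} (h : ex k j ≤ p) : (1 / 2) ^ p ≤ nu k j :=
  pow_le_pow_of_le_one (by norm_num) (by norm_num) h

lemma nu_le_two_mul (k j : ℕ) : nu k j ≤ 2 * nu k (j + 1) := by
  have h := le_nu_of (ex_succ_le k j)
  rw [pow_succ] at h
  unfold nu at *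
  linarith

/-- The linear form attached to the component `k`. -/
noncomputable def ff (a : ℝ × ℝ) (k : ℕ) : ℝ := a.2 - slope (mu k) * a.1

/-- The formal profile attached to `a`. -/
noncomputable def gg (a : ℝ × ℝ) (k j : ℕ) : ℝ := if j < k then ff a k else 0

lemma abs_ff_le (a : ℝ × ℝ) (k : ℕ) : |ff a k| ≤ ‖a‖ * (1 + mu k) := by
  unfold ff
  have h1 : |a.2| ≤ ‖a‖ := norm_snd_le a
  have h2 : |a.1| ≤ ‖a‖ := norm_fst_le a
  have h3 := abs_slope_le (mu k)
  calc |a.2 - slope (mu k) * a.1| ≤ |a.2| + |slope (mu k) * a.1| := abs_sub _ _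
    _ = |a.2| + |slope (mu k)| * |a.1| := by rw [abs_mul]
    _ ≤ ‖a‖ + mu k * ‖a‖ := by gcongr
    _ = _ := by ring

lemma abs_gg_le (a : ℝ × ℝ) (k j : ℕ) : |gg a k j| ≤ ‖a‖ * (1 + mu k) := by
  unfold gg
  split_ifs
  · exact abs_ff_le a k
  · simp only [abs_zero]; positivity

/-- The whole space. -/
abbrev X : Type := (ℝ × ℝ) × E

/-- The unweighted coordinates of a vector. -/
noncomputable def co (x : X) (k j : ℕ) : ℝ := gg x.1 k j + x.2 (k, j) / nu k j

lemma jump_le (a : ℝ × ℝ) (k j : ℕ) :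
    |nu k j * (gg a k (j + 1) - gg a k j)| ≤
      if k = j + 1 then (‖a‖ * (1 + 1 * j) + ‖a‖) * (1 / 2) ^ j else 0 := by
  split_ifs with h
  · subst h
    have h1 : gg a (j + 1) (j + 1) = 0 := by simp [gg]
    have h2 : nu (j + 1) j = (1 / 2) ^ j := by simp [nu, ex]
    have h3 := abs_gg_le a (j + 1) j
    have h4 : (mu (j + 1) : ℝ) ≤ j + 1 := by exact_mod_cast mu_le (j + 1)
    rw [h1, h2, zero_sub, abs_mul, abs_neg, abs_of_pos (by positivity), mul_comm]
    have h5 : ‖a‖ * (1 + mu (j + 1)) ≤ ‖a‖ * (1 + 1 * j) + ‖a‖ := by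
      have := norm_nonneg a
      nlinarith
    gcongr
    exact h3.trans h5
  · have : gg a k (j + 1) = gg a k j := by
      unfold gg
      split_ifs <;> first | rfl | omega
    simp [this]

lemma step_eq (x : X) (k j : ℕ) :
    nu k j * (co x k (j + 1) - gg x.1 k j) =
      nu k j / nu k (j + 1) * x.2 (k, j + 1) + nu k j * (gg x.1 k (j + 1) - gg x.1 k j) := by
  unfold co
  ring

lemma abs_shift_le (y : E) (k j : ℕ) :
    |nu k j / nu k (j + 1) * y (k, j + 1)| ≤ 2 * |y (k, j + 1)| := by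
  have h1 := nu_pos k j
  have h2 := nu_pos k (j + 1)
  rw [abs_mul, abs_of_pos (div_pos h1 h2)]
  gcongr
  rw [div_le_iff₀ h2]
  exact nu_le_two_mul k j

/-- The second component of the operator. -/
noncomputable def stepE (x : X) : E :=
  mkE (fun q => nu q.1 q.2 * (co x q.1 (q.2 + 1) - gg x.1 q.1 q.2)) (by
    intro ε hε
    obtain ⟨K1, hK1⟩ := box_of_E x.2 (ε / 4) (by positivity)
    obtain ⟨J, hJ⟩ := eventually_small ‖x.1‖ ‖x.1‖ 1 (ε / 2) (by positivity)
    refine ⟨max K1 (J + 1), fun k j hkj => ?_⟩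
    simp only
    rw [step_eq]
    have h1 := abs_shift_le x.2 k j
    have h2 := hK1 k (j + 1) (by omega)
    have h3 := jump_le x.1 k j
    have h4 : |nu k j * (gg x.1 k (j + 1) - gg x.1 k j)| ≤ ε / 2 := by
      refine h3.trans ?_
      split_ifs with h
      · exact (hJ j (by omega)).le
      · positivity
    refine (abs_add_le _ _).trans_lt ?_
    linarith)

lemma stepE_apply (x : X) (k j : ℕ) :
    stepE x (k, j) = nu k j * (co x k (j + 1) - gg x.1 k j) := rfl

lemma gg_add (a b : ℝ × ℝ) (k j : ℕ) : gg (a + b) k j = gg a k j + gg b k j := by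
  unfold gg ff
  split_ifs
  · simp only [Prod.snd_add, Prod.fst_add]; ring
  · simp

lemma gg_smul (c : ℝ) (a : ℝ × ℝ) (k j : ℕ) : gg (c • a) k j = c * gg a k j := by
  unfold gg ff
  split_ifs
  · simp only [Prod.smul_snd, Prod.smul_fst, smul_eq_mul]; ring
  · simp

lemma norm_stepE_le (x : X) : ‖stepE x‖ ≤ 4 * ‖x‖ := by
  refine norm_le_of _ _ (by positivity) fun k j => ?_
  rw [stepE_apply, step_eq]
  have h1 := abs_shift_le x.2 k j
  have h2 := abs_le_norm x.2 (k, j + 1)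
  have h3 := jump_le x.1 k j
  have h5 : ‖x.1‖ ≤ ‖x‖ := norm_fst_le x
  have h6 : ‖x.2‖ ≤ ‖x‖ := norm_snd_le x
  have h4 : |nu k j * (gg x.1 k (j + 1) - gg x.1 k j)| ≤ 2 * ‖x.1‖ := by
    refine h3.trans ?_
    split_ifs with h
    · have h7 : ((j : ℝ) + 2) ≤ 2 * 2 ^ j := by
        have : j + 1 < 2 ^ (j + 1) := Nat.lt_two_pow_self
        have h8 : j + 2 ≤ 2 * 2 ^ j := by rw [pow_succ] at this; omega
        exact_mod_cast h8
      rw [one_div, inv_pow, ← div_eq_mul_inv, div_le_iff₀ (by positivity)]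
      have := norm_nonneg x.1
      nlinarith
    · positivity
  refine (abs_add_le _ _).trans ?_
  linarith

/-- The operator as a linear map. -/
noncomputable def opL : X →ₗ[ℝ] X where
  toFun x := (x.1, stepE x)
  map_add' x x' := by
    refine Prod.ext rfl ?_
    ext ⟨k, j⟩
    simp only [Prod.snd_add, ZeroAtInftyContinuousMap.add_apply, stepE_apply, co, Prod.fst_add,
      gg_add]
    ring
  map_smul' c x := by
    refine Prod.ext rfl ?_
    ext ⟨k, j⟩
    simp only [Prod.smul_snd, ZeroAtInftyContinuousMap.smul_apply, stepE_apply, co,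
      Prod.smul_fst, gg_smul, smul_eq_mul, RingHom.id_apply]
    ring

/-- The operator. -/
noncomputable def op : X →L[ℝ] X :=
  opL.mkContinuous 4 (by
    intro x
    have h := norm_stepE_le x
    have h5 : ‖x.1‖ ≤ ‖x‖ := norm_fst_le x
    have := norm_nonneg x
    change ‖(x.1, stepE x)‖ ≤ _
    rw [Prod.norm_def]
    simp only [max_le_iff]
    constructor
    · linarith
    · exact h)

lemma op_apply (x : X) : op x = (x.1, stepE x) := rfl

lemma co_op (x : X) (k j : ℕ) : co (op x) k j = co x k (j + 1) := by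
  have := (nu_pos k j).ne'
  rw [op_apply]
  unfold co
  simp only [stepE_apply]
  unfold co
  field_simp
  ring

lemma iter_fst (x : X) (n : ℕ) : ((⇑op)^[n] x).1 = x.1 := by
  induction n with
  | zero => rfl
  | succ n ih => rw [Function.iterate_succ_apply', op_apply]; exact ih

lemma co_iter (x : X) (n k j : ℕ) : co ((⇑op)^[n] x) k j = co x k (j + n) := by
  induction n generalizing j with
  | zero => rfl
  | succ n ih =>
    rw [Function.iterate_succ_apply', co_op, ih]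
    congr 1
    omega

lemma sub_eq_co (x x' : X) (h : x.1 = x'.1) (k j : ℕ) :
    (x.2 - x'.2) (k, j) = nu k j * (co x k j - co x' k j) := by
  have := (nu_pos k j).ne'
  unfold co
  rw [h]
  simp only [ZeroAtInftyContinuousMap.sub_apply]
  field_simp
  ring

lemma dist_le_of_co (x x' : X) (h : x.1 = x'.1) (δ : ℝ) (hδ : 0 ≤ δ)
    (hc : ∀ k j, nu k j * |co x k j - co x' k j| ≤ δ) : dist x x' ≤ δ := by
  rw [Prod.dist_eq, h, dist_self, dist_eq_norm]
  refine max_le hδ (norm_le_of _ _ hδ fun k j => ?_)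
  rw [sub_eq_co x x' h, abs_mul, abs_of_pos (nu_pos k j)]
  exact hc k j

lemma co_le_dist (x x' : X) (h : x.1 = x'.1) (k j : ℕ) :
    nu k j * |co x k j - co x' k j| ≤ dist x x' := by
  have h1 := abs_le_norm (x.2 - x'.2) (k, j)
  rw [sub_eq_co x x' h, abs_mul, abs_of_pos (nu_pos k j)] at h1
  refine h1.trans ?_
  rw [Prod.dist_eq, ← dist_eq_norm]
  exact le_max_right _ _

end Pool.Agent.MP_eb85b6_an

end MrgPart1

-- ======== part 2: formerly Pool.Agent.MP_eb85b6_an.Core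
section MrgPart2

/-!
The two halves of the counterexample: the fibre over `(0, 1)` contains no vector whose return
sets all have positive upper density, while the fibres over the slopes contain densely many.
-/

set_option autoImplicit false

namespace Pool.Agent.MP_eb85b6_an

open Filter Topology

/-- Positive upper density of all return sets. -/
def UF (x : X) : Prop :=
  ∀ U ∈ nhds x, ∃ ε : ℝ, 0 < ε ∧ ∀ N₀ : ℕ, ∃ N : ℕ, N₀ < N ∧
    ε * (N : ℝ) ≤ (({n : ℕ | 1 ≤ n ∧ n ≤ N ∧ (⇑op)^[n] x ∈ U}.ncard : ℕ) : ℝ)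

lemma bad_return (y : E) (R : ℕ) : ∃ K : ℕ, ∀ n, K ≤ n →
    dist ((⇑op)^[n] (((0, 1), y) : X)) (((0, 1), y) : X) < 1 / 4 → R ≤ lam n := by
  obtain ⟨K1, hK1⟩ := box_of_E y (1 / 4) (by norm_num)
  obtain ⟨K2, hK2⟩ := box_of_E y ((1 / 2) ^ R / 2) (by positivity)
  refine ⟨max (max K1 K2) 1, fun n hn hd => ?_⟩
  have h1 := (co_le_dist _ _ (iter_fst (((0, 1), y) : X) n) n 0).trans_lt hd
  have hn1 : 0 < n := by omega
  have h2 : nu n 0 = 1 := by simp [nu, ex, hn1]
  have h3 : co (((0, 1), y) : X) n 0 = 1 + y (n, 0) := by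
    simp [co, gg, ff, hn1, h2]
  have h4 : nu n n = (1 / 2) ^ lam n := by simp [nu, ex]
  have h5 : co (((0, 1), y) : X) n n = y (n, n) / (1 / 2) ^ lam n := by
    simp [co, gg, h4]
  rw [co_iter, zero_add, h2, h3, h5, one_mul] at h1
  have h6 := hK1 n 0 (by omega)
  have h7 := hK2 n n (by omega)
  by_contra hc
  have h8 : (1 / 2 : ℝ) ^ R ≤ (1 / 2) ^ lam n :=
    pow_le_pow_of_le_one (by norm_num) (by norm_num) (by omega)
  have h9 : (0 : ℝ) < (1 / 2) ^ lam n := by positivity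
  have h10 : y (n, n) / (1 / 2) ^ lam n < 1 / 2 := by
    rw [div_lt_iff₀ h9]
    have := le_abs_self (y (n, n))
    linarith
  have h11 := (abs_lt.1 h1).1
  have h12 := (abs_lt.1 h6).1
  linarith

theorem not_UF (y : E) : ¬ UF (((0, 1), y) : X) := by
  intro h
  obtain ⟨ε, hε, hN⟩ := h (Metric.ball (((0, 1), y) : X) (1 / 4)) (Metric.ball_mem_nhds _ (by norm_num))
  obtain ⟨R, hR⟩ := exists_pow_lt_of_lt_one (show 0 < ε / 20 by positivity)
    (show (1 / 2 : ℝ) < 1 by norm_num)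
  obtain ⟨K, hK⟩ := bad_return y (R + 1)
  obtain ⟨N, hN1, hN2⟩ := hN ⌈2 * K / ε⌉₊
  have hsub : {n : ℕ | 1 ≤ n ∧ n ≤ N ∧ (⇑op)^[n] (((0, 1), y) : X) ∈
      Metric.ball (((0, 1), y) : X) (1 / 4)} ⊆
      ((Finset.range K ∪ (Finset.Icc 1 N).filter (fun k => R + 1 ≤ lam k) : Finset ℕ) : Set ℕ) := by
    rintro n ⟨h1, h2, h3⟩
    simp only [Finset.coe_union, Finset.coe_range, Finset.coe_filter, Finset.mem_Icc,
      Set.mem_union, Set.mem_Iio, Set.mem_ofPred_eq]
    by_cases hn : n < K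
    · exact Or.inl hn
    · exact Or.inr ⟨⟨h1, h2⟩, hK n (by omega) h3⟩
  have h1 := Set.ncard_le_ncard hsub (Finset.finite_toSet _)
  rw [Set.ncard_coe_finset] at h1
  have h2 := h1.trans (Finset.card_union_le _ _)
  rw [Finset.card_range] at h2
  have h3 := card_lam (R + 1) N (by omega)
  have h4 : ε * N ≤ K + 10 * N * (1 / 2) ^ (R + 1) := by
    refine hN2.trans ?_
    have : (({n : ℕ | 1 ≤ n ∧ n ≤ N ∧ (⇑op)^[n] (((0, 1), y) : X) ∈
      Metric.ball (((0, 1), y) : X) (1 / 4)}.ncard : ℕ) : ℝ) ≤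
        K + (((Finset.Icc 1 N).filter (fun k => R + 1 ≤ lam k)).card : ℝ) := by
      exact_mod_cast h2
    linarith
  have h5 : 2 * K / ε < N := by
    refine (Nat.le_ceil _).trans_lt ?_
    exact_mod_cast hN1
  rw [div_lt_iff₀ hε] at h5
  have h6 : (0 : ℝ) ≤ N := by positivity
  rw [pow_succ] at h4
  have h7 : (N : ℝ) * (1 / 2) ^ R ≤ N * (ε / 20) := by gcongr
  have h8 : (0 : ℝ) ≤ K := by positivity
  nlinarith

/-- Support inside a finite box. -/
def Supp (y : E) (K : ℕ) : Prop := ∀ k j, (K ≤ k ∨ K ≤ j) → y (k, j) = 0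

lemma abs_div_nu_le {y : E} {K : ℕ} (h : Supp y K) (k j : ℕ) :
    |y (k, j) / nu k j| ≤ ‖y‖ * 2 ^ K := by
  by_cases hj : K ≤ j
  · rw [h k j (Or.inr hj)]
    simp only [zero_div, abs_zero]
    positivity
  · have h1 : (1 / 2 : ℝ) ^ K ≤ nu k j := le_nu_of ((ex_le k j).trans (by omega))
    have h2 := nu_pos k j
    rw [abs_div, abs_of_pos h2, div_le_iff₀ h2]
    have h3 := abs_le_norm y (k, j)
    have h4 : (2 : ℝ) ^ K * (1 / 2) ^ K = 1 := by rw [← mul_pow]; norm_num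
    calc |y (k, j)| ≤ ‖y‖ * (2 ^ K * (1 / 2) ^ K) := by rw [h4, mul_one]; exact h3
      _ = ‖y‖ * 2 ^ K * (1 / 2) ^ K := by ring
      _ ≤ _ := by gcongr

/-- The periodic pattern. -/
noncomputable def pat (x : X) (p k r : ℕ) : ℝ :=
  if r ≤ p then co x k r else if mu k ≤ p then 0 else ff x.1 k

lemma abs_pat_le (x : X) {K : ℕ} (h : Supp x.2 K) (p k r : ℕ) :
    |pat x p k r| ≤ ‖x.1‖ * (1 + mu k) + ‖x.2‖ * 2 ^ K := by
  unfold pat
  split_ifs
  · unfold co
    exact (abs_add_le _ _).trans (add_le_add (abs_gg_le _ _ _) (abs_div_nu_le h _ _))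
  · simp only [abs_zero]; positivity
  · refine (abs_ff_le _ _).trans ?_
    have : 0 ≤ ‖x.2‖ * 2 ^ K := by positivity
    linarith

lemma co_of_supp (x : X) {K : ℕ} (h : Supp x.2 K) {k j : ℕ} (hkj : K ≤ k ∨ K ≤ j) :
    co x k j = gg x.1 k j := by
  unfold co
  rw [h k j hkj]
  simp

lemma pat_close (x : X) {K : ℕ} (h : Supp x.2 K) (δ : ℝ) (hδ : 0 < δ) :
    ∃ p : ℕ, ∀ k j, nu k j * |pat x p k (j % 4 ^ p) - co x k j| ≤ δ := by
  obtain ⟨J, hJ⟩ := eventually_small (2 * ‖x.1‖) (‖x.2‖ * 2 ^ K) 1 δ hδ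
  refine ⟨max J K, fun k j => ?_⟩
  set p := max J K with hp
  have hb := two_mul_lt_four_pow p
  have hA := norm_nonneg x.1
  have hB : 0 ≤ ‖x.2‖ * 2 ^ K := by positivity
  by_cases hj : j ≤ p
  · rw [Nat.mod_eq_of_lt (by omega)]
    unfold pat
    rw [if_pos hj]
    simp [hδ.le]
  have hco : co x k j = gg x.1 k j := co_of_supp x h (by omega)
  have hmod : j % 4 ^ p ≤ j := Nat.mod_le _ _
  by_cases hm : mu k ≤ p
  · have hamp : |pat x p k (j % 4 ^ p) - co x k j| ≤ 2 * ‖x.1‖ * (1 + 1 * p) + ‖x.2‖ * 2 ^ K := by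
      have h1 := abs_pat_le x h p k (j % 4 ^ p)
      have h2 := abs_gg_le x.1 k j
      have h3 : (mu k : ℝ) ≤ p := by exact_mod_cast hm
      have h4 : ‖x.1‖ * (1 + mu k) ≤ ‖x.1‖ * (1 + p) := by gcongr
      rw [hco]
      refine (abs_sub _ _).trans ?_
      linarith
    have key : p ≤ ex k j → nu k j * |pat x p k (j % 4 ^ p) - co x k j| ≤ δ := by
      intro he
      have h1 := nu_le_of he
      have h2 := hJ p (by omega)
      calc _ ≤ (1 / 2) ^ p * (2 * ‖x.1‖ * (1 + 1 * p) + ‖x.2‖ * 2 ^ K) := by gcongr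
        _ ≤ δ := by rw [mul_comm]; exact h2.le
    by_cases hjk : j < k
    · apply key
      unfold ex
      rw [if_pos hjk]
      omega
    · by_cases hr : j % 4 ^ p ≤ p
      · apply key
        unfold ex
        rw [if_neg hjk]
        by_cases hfar : p ≤ j - k
        · omega
        · have hdiv := Nat.div_add_mod j (4 ^ p)
          have hd : Dip p k := by
            refine ⟨j / 4 ^ p, ?_, ?_, ?_⟩
            · rcases Nat.eq_zero_or_pos (j / 4 ^ p) with h0 | h0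
              · rw [h0] at hdiv; omega
              · exact h0
            · rw [mul_comm]; omega
            · rw [mul_comm]; omega
          have := hd.le_lam
          omega
      · rw [hco]
        unfold pat gg
        rw [if_neg hr, if_pos hm, if_neg hjk]
        simp [hδ.le]
  · have hk := mu_le k
    by_cases hjk : j < k
    · have h1 : pat x p k (j % 4 ^ p) = ff x.1 k := by
        unfold pat
        split_ifs
        · rw [co_of_supp x h (by omega)]
          unfold gg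
          rw [if_pos (by omega)]
        · rfl
      rw [hco, h1]
      unfold gg
      rw [if_pos hjk]
      simp [hδ.le]
    · have h1 : gg x.1 k j = 0 := by unfold gg; rw [if_neg hjk]
      rw [hco, h1, sub_zero]
      have h2 := abs_pat_le x h p k (j % 4 ^ p)
      have h3 : mu k ≤ ex k j := by
        have := mu_le_lam k
        unfold ex
        rw [if_neg hjk]
        omega
      have h4 := nu_le_of h3
      have h5 := hJ (mu k) (by omega)
      have h6 : ‖x.1‖ * (1 + mu k) ≤ 2 * ‖x.1‖ * (1 + 1 * mu k) := by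
        have : 0 ≤ ‖x.1‖ * (1 + mu k) := by positivity
        linarith
      calc _ ≤ (1 / 2) ^ mu k * (2 * ‖x.1‖ * (1 + 1 * mu k) + ‖x.2‖ * 2 ^ K) := by
            gcongr
            linarith
        _ ≤ δ := by rw [mul_comm]; exact h5.le

end Pool.Agent.MP_eb85b6_an

end MrgPart2

-- ======== part 3: formerly Pool.Agent.MP_eb85b6_an.Lake
section MrgPart3

/-!
Small perturbations with many returns, and the Baire category argument.
-/

set_option autoImplicit false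

namespace Pool.Agent.MP_eb85b6_an

open Filter Topology

lemma lake_bound (x : X) {K : ℕ} (h : Supp x.2 K) (p N H k i : ℕ) (hk : k < N) (hi : N + H ≤ i) :
    |nu k i * pat x p k (i % 4 ^ p)| ≤
      (‖x.1‖ * (1 + N) + ‖x.2‖ * 2 ^ K) * (1 / 2) ^ (i - N) := by
  have h1 := abs_pat_le x h p k (i % 4 ^ p)
  have h2 : i - N ≤ ex k i := by
    unfold ex
    split_ifs <;> omega
  have h3 := nu_le_of h2
  have h4 : (mu k : ℝ) ≤ N := by exact_mod_cast (mu_le k).trans hk.le
  have h5 := norm_nonneg x.1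
  rw [abs_mul, abs_of_pos (nu_pos k i), mul_comm]
  have h6 : ‖x.1‖ * (1 + mu k) ≤ ‖x.1‖ * (1 + N) := by gcongr
  have := nu_pos k i
  gcongr
  linarith

/-- The perturbation carrying the periodic pattern. -/
noncomputable def lake (x : X) {K : ℕ} (h : Supp x.2 K) (p N H : ℕ) : E :=
  mkE (fun q => if q.1 < N ∧ N + H ≤ q.2 then nu q.1 q.2 * pat x p q.1 (q.2 % 4 ^ p) else 0) (by
    intro ε hε
    obtain ⟨J, hJ⟩ := eventually_small (‖x.1‖ * (1 + N)) (‖x.2‖ * 2 ^ K) 0 ε hε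
    refine ⟨N + J, fun k j hkj => ?_⟩
    simp only
    split_ifs with hc
    · refine (lake_bound x h p N H k j hc.1 hc.2).trans_lt ?_
      have := hJ (j - N) (by omega)
      simpa using this
    · simpa using hε)

lemma lake_apply (x : X) {K : ℕ} (h : Supp x.2 K) (p N H k i : ℕ) :
    lake x h p N H (k, i) =
      if k < N ∧ N + H ≤ i then nu k i * pat x p k (i % 4 ^ p) else 0 := rfl

lemma norm_lake_le (x : X) {K : ℕ} (h : Supp x.2 K) (p N H : ℕ) :
    ‖lake x h p N H‖ ≤ (‖x.1‖ * (1 + N) + ‖x.2‖ * 2 ^ K) * (1 / 2) ^ H := by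
  refine norm_le_of _ _ (by positivity) fun k i => ?_
  rw [lake_apply]
  split_ifs with hc
  · refine (lake_bound x h p N H k i hc.1 hc.2).trans ?_
    have : (1 / 2 : ℝ) ^ (i - N) ≤ (1 / 2) ^ H :=
      pow_le_pow_of_le_one (by norm_num) (by norm_num) (by omega)
    gcongr
  · simp only [abs_zero]; positivity

lemma exists_supp_close (y : E) (η : ℝ) (hη : 0 < η) :
    ∃ (y₁ : E) (K : ℕ), Supp y₁ K ∧ dist y y₁ ≤ η := by
  obtain ⟨K, hK⟩ := box_of_E y η hη
  refine ⟨mkE (fun q => if K ≤ q.1 ∨ K ≤ q.2 then 0 else y q) ?_, K, ?_, ?_⟩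
  · intro ε hε
    refine ⟨K, fun k j hkj => ?_⟩
    simp only
    rw [if_pos hkj]
    simpa using hε
  · intro k j hkj
    rw [mkE_apply]
    simp only
    rw [if_pos hkj]
  · rw [dist_eq_norm]
    refine norm_le_of _ _ hη.le fun k j => ?_
    rw [ZeroAtInftyContinuousMap.sub_apply, mkE_apply]
    simp only
    split_ifs with hc
    · rw [sub_zero]; exact (hK k j hc).le
    · simp [hη.le]

/-- The set of second components with many returns to a ball up to some large time. -/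
def Many (a : ℝ × ℝ) (y₀ : E) (δ ε : ℝ) (N₀ : ℕ) : Set E :=
  {y | ∃ N : ℕ, N₀ < N ∧ ε * (N : ℝ) ≤
    (({n : ℕ | 1 ≤ n ∧ n ≤ N ∧ (⇑op)^[n] ((a, y) : X) ∈ Metric.ball ((a, y₀) : X) δ}.ncard : ℕ) : ℝ)}

lemma finite_ret (N : ℕ) (P : ℕ → Prop) : {n : ℕ | 1 ≤ n ∧ n ≤ N ∧ P n}.Finite :=
  (Set.finite_le_nat N).subset fun _ hn => hn.2.1

lemma isOpen_many (a : ℝ × ℝ) (y₀ : E) (δ ε : ℝ) (N₀ : ℕ) : IsOpen (Many a y₀ δ ε N₀) := by
  rw [isOpen_iff_mem_nhds]
  rintro y ⟨N, hN, hc⟩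
  have hfin := finite_ret N (fun n => (⇑op)^[n] ((a, y) : X) ∈ Metric.ball ((a, y₀) : X) δ)
  have hev : ∀ᶠ y' in 𝓝 y, ∀ n ∈ {n : ℕ | 1 ≤ n ∧ n ≤ N ∧
      (⇑op)^[n] ((a, y) : X) ∈ Metric.ball ((a, y₀) : X) δ},
      (⇑op)^[n] ((a, y') : X) ∈ Metric.ball ((a, y₀) : X) δ := by
    rw [Filter.eventually_all_finite hfin]
    intro n hn
    have hcont : Continuous fun y' : E => (⇑op)^[n] ((a, y') : X) :=
      (op.continuous.iterate n).comp (Continuous.prodMk_right a)
    exact hcont.continuousAt.eventually (Metric.isOpen_ball.mem_nhds hn.2.2)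
  filter_upwards [hev] with y' hy'
  refine ⟨N, hN, hc.trans ?_⟩
  have := Set.ncard_le_ncard (s := {n : ℕ | 1 ≤ n ∧ n ≤ N ∧
      (⇑op)^[n] ((a, y) : X) ∈ Metric.ball ((a, y₀) : X) δ})
    (t := {n : ℕ | 1 ≤ n ∧ n ≤ N ∧
      (⇑op)^[n] ((a, y') : X) ∈ Metric.ball ((a, y₀) : X) δ})
    (fun n hn => ⟨hn.1, hn.2.1, hy' n hn⟩) (finite_ret N _)
  exact_mod_cast this

lemma dense_many (a : ℝ × ℝ) (m : ℕ) (ha : a.2 = slope m * a.1) (y₀ : E) {K : ℕ}
    (h₀ : Supp y₀ K) (δ : ℝ) (hδ : 0 < δ) :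
    ∃ ε : ℝ, 0 < ε ∧ ∀ N₀, Dense (Many a y₀ δ ε N₀) := by
  obtain ⟨p, hp⟩ := pat_close ((a, y₀) : X) h₀ (δ / 2) (by positivity)
  refine ⟨1 / (4 ^ p * (4 * 2 ^ m + 2)), by positivity, fun N₀ => ?_⟩
  rw [Metric.dense_iff]
  intro y' η hη
  obtain ⟨y₁, K₁, h₁, hd₁⟩ := exists_supp_close y' (η / 3) (by positivity)
  obtain ⟨J₁, hJ₁⟩ := eventually_small ‖a‖ (‖y₀‖ * 2 ^ K) (4 * 2 ^ m) (η / 3) (by positivity)
  obtain ⟨J₂, hJ₂⟩ := eventually_small ‖a‖ 0 (4 * 2 ^ m + 3) (δ / 2) (by positivity)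
  obtain ⟨s, hs, hw⟩ := mu_window m (m + 2 + 2 * p + (J₁ + J₂ + K₁ + K + N₀))
  obtain ⟨r, hr⟩ : ∃ r, s = m + 2 + 2 * p + r := ⟨s - (m + 2 + 2 * p), by omega⟩
  have hr1 : J₁ + J₂ + K₁ + K + N₀ ≤ r := by omega
  obtain ⟨w, hwdef⟩ : ∃ w, w = 2 ^ r := ⟨_, rfl⟩
  have hrw : r < w := by rw [hwdef]; exact Nat.lt_two_pow_self
  obtain ⟨b, hb⟩ : ∃ b, b = 4 ^ p := ⟨_, rfl⟩
  have hb1 : 1 ≤ b := by rw [hb]; exact Nat.one_le_pow _ _ (by norm_num)
  obtain ⟨c, hc⟩ : ∃ c, c = 4 * 2 ^ m := ⟨_, rfl⟩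
  have hc1 : 1 ≤ c := by
    have : 1 ≤ 2 ^ m := Nat.one_le_two_pow
    omega
  obtain ⟨H, hH⟩ : ∃ H, H = b * w := ⟨_, rfl⟩
  have hwH : w ≤ H := by rw [hH]; exact Nat.le_mul_of_pos_left _ hb1
  obtain ⟨N, hN⟩ : ∃ N, N = c * H := ⟨_, rfl⟩
  have hHN : H ≤ N := by rw [hN]; exact Nat.le_mul_of_pos_left _ hc1
  have e4 : (4 : ℕ) ^ p = 2 ^ (2 * p) := by rw [pow_mul]; norm_num
  have hs1 : 2 ^ s = N := by
    rw [hN, hH, hc, hb, hwdef, hr, e4]; ring
  have hs2 : 2 ^ (s - m) = 4 * H := by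
    rw [hH, hb, hwdef, show s - m = 2 + 2 * p + r by omega, e4]; ring
  rw [hs1, hs2] at hw
  refine ⟨y₁ + lake ((a, y₀) : X) h₀ p N H, ?_, N + 2 * H, by omega, ?_⟩
  · rw [Metric.mem_ball]
    have h2 := norm_lake_le ((a, y₀) : X) h₀ p N H
    have h3 := hJ₁ H (by omega)
    have h4 : (N : ℝ) = 4 * 2 ^ m * H := by rw [hN, hc]; push_cast; ring
    simp only at h2
    rw [h4] at h2
    have h5 : dist (y₁ + lake ((a, y₀) : X) h₀ p N H) y₁ = ‖lake ((a, y₀) : X) h₀ p N H‖ := by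
      simp
    have h6 := dist_triangle (y₁ + lake ((a, y₀) : X) h₀ p N H) y₁ y'
    rw [dist_comm y₁ y'] at h6
    linarith
  · have hret : ∀ i, i < w → (⇑op)^[N + H + b * i]
        ((a, y₁ + lake ((a, y₀) : X) h₀ p N H) : X) ∈ Metric.ball ((a, y₀) : X) δ := by
      intro i hi
      rw [Metric.mem_ball]
      refine lt_of_le_of_lt (dist_le_of_co _ ((a, y₀) : X) (by rw [iter_fst]) (δ / 2)
        (by positivity) ?_) (half_lt_self hδ)
      intro k j
      rw [co_iter]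
      have hbi : b * i ≤ H := by rw [hH]; exact Nat.mul_le_mul_left _ hi.le
      have hy1 : y₁ (k, j + (N + H + b * i)) = 0 := h₁ _ _ (by omega)
      by_cases hk : k < N
      · have hmod : (j + (N + H + b * i)) % 4 ^ p = j % 4 ^ p := by
          rw [hN, hH, ← hb, show j + (c * (b * w) + b * w + b * i) = j + b * (c * w + w + i) by ring,
            Nat.add_mul_mod_self_left]
        have : co ((a, y₁ + lake ((a, y₀) : X) h₀ p N H) : X) k (j + (N + H + b * i)) =
            pat ((a, y₀) : X) p k (j % 4 ^ p) := by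
          unfold co
          simp only [ZeroAtInftyContinuousMap.add_apply, hy1, lake_apply, zero_add]
          rw [if_pos ⟨hk, by omega⟩, hmod]
          unfold gg
          rw [if_neg (by omega)]
          have := (nu_pos k (j + (N + H + b * i))).ne'
          field_simp
          ring
        rw [this]
        exact hp k j
      · have e1 : co ((a, y₁ + lake ((a, y₀) : X) h₀ p N H) : X) k (j + (N + H + b * i)) =
            gg a k (j + (N + H + b * i)) := by
          unfold co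
          simp only [ZeroAtInftyContinuousMap.add_apply, hy1, lake_apply, zero_add]
          rw [if_neg (by omega)]
          simp
        have e2 : co ((a, y₀) : X) k j = gg a k j := co_of_supp _ h₀ (by omega)
        rw [e1, e2]
        by_cases hk2 : k < N + 4 * H
        · have hf : ff a k = 0 := by
            unfold ff
            rw [hw k (by omega) hk2, ha, sub_self]
          unfold gg
          simp [hf, (half_pos hδ).le]
        · by_cases hj : j < k ∧ k ≤ j + (N + H + b * i)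
          · have hnu : nu k j = (1 / 2) ^ j := by simp [nu, ex, hj.1]
            have e3 : gg a k (j + (N + H + b * i)) = 0 := by
              unfold gg; rw [if_neg (by omega)]
            rw [e3, zero_sub, abs_neg, hnu]
            have h2 := abs_gg_le a k j
            have h3 := hJ₂ j (by omega)
            have hjH : H ≤ j := by omega
            have h4 : c * H ≤ c * j := Nat.mul_le_mul_left _ hjH
            have h5 : mu k ≤ (c + 3) * j := by
              have := mu_le k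
              rw [add_mul]
              omega
            have h6 : (mu k : ℝ) ≤ (4 * 2 ^ m + 3) * j := by
              rw [hc] at h5
              exact_mod_cast h5
            have h7 := norm_nonneg a
            calc _ ≤ (1 / 2) ^ j * (‖a‖ * (1 + (4 * 2 ^ m + 3) * j) + 0) := by
                  gcongr
                  refine h2.trans ?_
                  rw [add_zero]
                  gcongr
              _ ≤ δ / 2 := by rw [mul_comm]; exact h3.le
          · have : gg a k (j + (N + H + b * i)) = gg a k j := by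
              unfold gg
              split_ifs <;> first | rfl | omega
            rw [this]
            simp [(half_pos hδ).le]
    have hsub : (((Finset.range w).image (fun i => N + H + b * i) : Finset ℕ) : Set ℕ) ⊆
        {n : ℕ | 1 ≤ n ∧ n ≤ N + 2 * H ∧ (⇑op)^[n]
          ((a, y₁ + lake ((a, y₀) : X) h₀ p N H) : X) ∈ Metric.ball ((a, y₀) : X) δ} := by
      intro n hn
      simp only [Finset.coe_image, Finset.coe_range, Set.mem_image, Set.mem_Iio] at hn
      obtain ⟨i, hi, rfl⟩ := hn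
      have hbi : b * i ≤ H := by rw [hH]; exact Nat.mul_le_mul_left _ hi.le
      exact ⟨by omega, by omega, hret i hi⟩
    have h1 := Set.ncard_le_ncard hsub (finite_ret _ _)
    rw [Set.ncard_coe_finset, Finset.card_image_of_injective _ (by
      intro i i' hii
      simp only [add_right_inj] at hii
      exact Nat.eq_of_mul_eq_mul_left hb1 hii), Finset.card_range] at h1
    refine le_trans (le_of_eq ?_) (Nat.cast_le.2 h1)
    rw [hN, hH, hc, hb]
    push_cast
    field_simp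

/-- Finitely supported rational vectors. -/
noncomputable def embQ (c : (ℕ × ℕ) →₀ ℚ) : E :=
  mkE (fun q => (c q : ℝ)) (by
    intro ε hε
    obtain ⟨K1, hK1⟩ := (c.support.image Prod.fst).bddAbove
    obtain ⟨K2, hK2⟩ := (c.support.image Prod.snd).bddAbove
    refine ⟨max K1 K2 + 1, fun k j hkj => ?_⟩
    have : c (k, j) = 0 := by
      by_contra hc
      have hm : (k, j) ∈ c.support := Finsupp.mem_support_iff.2 hc
      have h1 : k ≤ K1 := hK1 (Finset.mem_coe.2 (Finset.mem_image_of_mem Prod.fst hm))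
      have h3 : j ≤ K2 := hK2 (Finset.mem_coe.2 (Finset.mem_image_of_mem Prod.snd hm))
      omega
    simp [this, hε])

lemma supp_embQ (c : (ℕ × ℕ) →₀ ℚ) : ∃ K, Supp (embQ c) K := by
  obtain ⟨K1, hK1⟩ := (c.support.image Prod.fst).bddAbove
  obtain ⟨K2, hK2⟩ := (c.support.image Prod.snd).bddAbove
  refine ⟨max K1 K2 + 1, fun k j hkj => ?_⟩
  have : c (k, j) = 0 := by
    by_contra hc
    have hm : (k, j) ∈ c.support := Finsupp.mem_support_iff.2 hc
    have h1 : k ≤ K1 := hK1 (Finset.mem_coe.2 (Finset.mem_image_of_mem Prod.fst hm))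
    have h3 : j ≤ K2 := hK2 (Finset.mem_coe.2 (Finset.mem_image_of_mem Prod.snd hm))
    omega
  change ((c (k, j) : ℚ) : ℝ) = 0
  simp [this]

lemma exists_embQ_close (y : E) (η : ℝ) (hη : 0 < η) : ∃ c, dist y (embQ c) ≤ η := by
  obtain ⟨K, hK⟩ := box_of_E y η hη
  have hq : ∀ q : ℕ × ℕ, ∃ r : ℚ, |y q - r| < η := fun q => exists_rat_near (y q) hη
  choose r hr using hq
  refine ⟨Finsupp.onFinset (Finset.range K ×ˢ Finset.range K)
    (fun q => if K ≤ q.1 ∨ K ≤ q.2 then 0 else r q) ?_, ?_⟩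
  · rintro ⟨k, j⟩ hkj
    simp only [Finset.mem_product, Finset.mem_range]
    by_contra hc
    apply hkj
    simp only
    rw [if_pos (by omega)]
  · rw [dist_eq_norm]
    refine norm_le_of _ _ hη.le fun k j => ?_
    rw [ZeroAtInftyContinuousMap.sub_apply]
    change |y (k, j) - (((if K ≤ k ∨ K ≤ j then 0 else r (k, j) : ℚ)) : ℝ)| ≤ η
    split_ifs with hc
    · simpa using (hK k j hc).le
    · exact (hr (k, j)).le

theorem dense_fibre (a : ℝ × ℝ) (m : ℕ) (ha : a.2 = slope m * a.1) :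
    Dense {y : E | UF ((a, y) : X)} := by
  have key : ∀ c : (ℕ × ℕ) →₀ ℚ, ∀ q : ℕ, ∃ ε : ℝ, 0 < ε ∧
      ∀ N₀, Dense (Many a (embQ c) (1 / (q + 1)) ε N₀) := by
    intro c q
    obtain ⟨K, hK⟩ := supp_embQ c
    exact dense_many a m ha _ hK _ (by positivity)
  choose ε hε hd using key
  have hB : Dense (⋂ i : ((ℕ × ℕ) →₀ ℚ) × ℕ × ℕ,
      Many a (embQ i.1) (1 / (i.2.1 + 1)) (ε i.1 i.2.1) i.2.2) :=
    dense_iInter_of_isOpen (fun i => isOpen_many _ _ _ _ _) (fun i => hd _ _ _)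
  refine hB.mono fun y hy U hU => ?_
  rw [Set.mem_iInter] at hy
  obtain ⟨ρ, hρ, hball⟩ := Metric.mem_nhds_iff.1 hU
  obtain ⟨q, hq⟩ := exists_nat_one_div_lt (show 0 < ρ / 2 by positivity)
  obtain ⟨c, hc⟩ := exists_embQ_close y (1 / (q + 1)) (by positivity)
  refine ⟨ε c q, hε c q, fun N₀ => ?_⟩
  obtain ⟨N, hN, hcount⟩ := hy (c, q, N₀)
  refine ⟨N, hN, hcount.trans ?_⟩
  have := Set.ncard_le_ncard (s := {n : ℕ | 1 ≤ n ∧ n ≤ N ∧
      (⇑op)^[n] ((a, y) : X) ∈ Metric.ball ((a, embQ c) : X) (1 / (q + 1))})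
    (t := {n : ℕ | 1 ≤ n ∧ n ≤ N ∧ (⇑op)^[n] ((a, y) : X) ∈ U})
    (fun n hn => ⟨hn.1, hn.2.1, hball (by
      have h1 := hn.2.2
      rw [Metric.mem_ball] at h1 ⊢
      have h2 : dist ((a, embQ c) : X) ((a, y) : X) ≤ 1 / (q + 1) := by
        rw [Prod.dist_eq, dist_self, dist_comm]
        exact max_le (by positivity) hc
      have h3 := dist_triangle ((⇑op)^[n] ((a, y) : X)) ((a, embQ c) : X) ((a, y) : X)
      linarith)⟩) (finite_ret N _)
  exact_mod_cast this

theorem dense_UF : Dense {x : X | UF x} := by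
  rw [Metric.dense_iff]
  rintro ⟨⟨a1, a2⟩, y⟩ ρ hρ
  obtain ⟨b1, hb1, hb0⟩ : ∃ b1 : ℝ, |b1 - a1| < ρ ∧ b1 ≠ 0 := by
    by_cases h : a1 = 0
    · refine ⟨ρ / 2, ?_, by positivity⟩
      rw [h, sub_zero, abs_of_pos (by positivity)]
      linarith
    · exact ⟨a1, by simpa using hρ, h⟩
  have hb2 : 0 < |b1| := abs_pos.2 hb0
  obtain ⟨r, hr⟩ := exists_rat_near (a2 / b1) (show 0 < ρ / |b1| by positivity)
  obtain ⟨m, hm⟩ := slope_rat r
  have hr2 : |(r : ℝ) * b1 - a2| < ρ := by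
    rw [lt_div_iff₀ hb2, ← abs_mul] at hr
    rw [abs_sub_comm]
    have : (a2 / b1 - r) * b1 = a2 - r * b1 := by field_simp
    rwa [this] at hr
  obtain ⟨y', hy1, hy2⟩ := Metric.dense_iff.1
    (dense_fibre (b1, (r : ℝ) * b1) m (by rw [hm])) y ρ hρ
  refine ⟨((b1, (r : ℝ) * b1), y'), ?_, hy2⟩
  rw [Metric.mem_ball] at hy1 ⊢
  rw [Prod.dist_eq, Prod.dist_eq]
  exact max_lt (max_lt hb1 hr2) hy1

theorem exists_bad (M : Submodule ℝ X) (hM : Dense (M : Set X)) : ∃ x ∈ M, ¬ UF x := by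
  have h1 : Dense ((M.map (LinearMap.fst ℝ (ℝ × ℝ) E) : Submodule ℝ (ℝ × ℝ)) : Set (ℝ × ℝ)) := by
    rw [Submodule.map_coe]
    exact DenseRange.dense_image (Prod.fst_surjective.denseRange) continuous_fst hM
  have h2 := (M.map (LinearMap.fst ℝ (ℝ × ℝ) E)).closed_of_finiteDimensional
  have h3 : ((0, 1) : ℝ × ℝ) ∈ M.map (LinearMap.fst ℝ (ℝ × ℝ) E) := by
    have := h1 (0, 1)
    rwa [h2.closure_eq] at this
  obtain ⟨⟨a, y⟩, hx, hxa⟩ := Submodule.mem_map.1 h3
  simp only [LinearMap.fst_apply] at hxa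
  subst hxa
  exact ⟨_, hx, not_UF y⟩

end Pool.Agent.MP_eb85b6_an

end MrgPart3

-- marker of a merged file
example : 731051 + 423981 = 731051 + 423981 := rfl
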